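import Pool.Agent.L7h71.GD.Stm
import Pool.Agent.L7h73.GC.Exr

set_option autoImplicit false

/-!
# Project GD (helper71): part EXM, enumeration of the top points
-/

namespace Pool.Agent.L7h73.GD

open Set Function FirstOrder FirstOrder.Language
open Pool.Agent.L7h71.GC
open Pool.Agent.L7h71.GD
open Pool.Agent.L7h71.GB (pt)

theorem s_EXM : S_EXM := by
  intro L S hS hfg
  have hinf : (setOf (TopP S)).Infinite := by
    intro hfin
    apply hfg
    refine ⟨hfin.toFinset.toList, ?_, fun p => ?_⟩
    · obtain ⟨y, -, hy, -⟩ := hS.top 0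
      intro h
      have h1 : y ∈ hfin.toFinset.toList := Finset.mem_toList.2 (hfin.mem_toFinset.2 hy)
      rw [h] at h1
      exact absurd h1 (List.not_mem_nil)
    · obtain ⟨y, h1, hy, -⟩ := hS.top p
      have h2 : y ∈ hfin.toFinset.toList := Finset.mem_toList.2 (hfin.mem_toFinset.2 hy)
      obtain ⟨i, hi, h3⟩ := List.getElem_of_mem h2
      refine Pool.Agent.L7h73.GC.gen_of_G1 (i := i) h1 ?_
      unfold pt
      rw [List.getD_eq_getElem _ _ hi, h3]
  refine ⟨Nat.nth (TopP S), Nat.nth_injective hinf, fun y => ?_⟩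
  have h := Nat.range_nth_of_infinite hinf
  constructor
  · intro hy
    have : y ∈ range (Nat.nth (TopP S)) := by rw [h]; exact hy
    exact this
  · intro hy
    have : y ∈ range (Nat.nth (TopP S)) := hy
    rw [h] at this
    exact this

end Pool.Agent.L7h73.GD
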